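import Pool.Agent.H992.SF.Defs
import Pool.Graph.R_pool_sql_team_seeded_63374d34.N40.BRSTATH1

/-!
# SF/EQ2 (helper992, MP_a28cf0_nt): equicontinuity of displaced functions

Adapted from `N40/BRSTATH1.lean` (`EQ`) and `N645/BHISOH.lean` (`der`).
-/

set_option autoImplicit false
open MeasureTheory Filter Topology Complex
open scoped ContDiff

namespace Pool.Agent.H388.SF

open Pool.Agent.W745.RW (dx dy TF CC)
open Pool.Agent.TH294.RS (dd db DP DM)
open Pool.Agent.Y265.RW (int_mul int_mulr)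
open Pool.Agent.Y265.HY (SY M2C)
open Pool.Agent.N661.BH (mv)
open Pool.Agent.N645.BH
open Pool.Agent.H992.SF (S_EQ2)

/-- differentiation along the path `t ↦ mv h (a + t d) z` -/
lemma der2 {U K' B : Set ℂ} (hU : IsOpen U) (hUK : U ⊆ K') {φ : ℂ → ℝ} (hφ : TF U φ)
    (hK' : IsCompact K') (hB : IsOpen B) (hK'B : K' ⊆ B) {h : ℝ} {a d : ℂ}
    (hs : ∀ z ∈ U, ∀ t : ℝ, |t| ≤ 2 → mv h (a + (t : ℂ) * d) z ∈ K')
    {g f : ℂ → ℂ} (hg : ContinuousOn g U) (hf : ContDiffOn ℝ ∞ f B) {t : ℝ}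
    (ht : t ∈ Set.Icc (0:ℝ) 1) :
    HasDerivAt (fun t : ℝ => ∫ z, (φ z : ℂ) * (g z * f (mv h (a + (t : ℂ) * d) z)))
      (∫ z, (φ z : ℂ) * (g z * fderiv ℝ f (mv h (a + (t : ℂ) * d) z)
        (((h * z.im : ℝ) : ℂ) * d))) t := by
  have hball : ∀ x ∈ Metric.ball t 1, |x| ≤ 2 := by
    intro x hx
    rw [Metric.mem_ball, Real.dist_eq, abs_lt] at hx
    have := ht.1
    have := ht.2
    rw [abs_le]
    constructor <;> linarith [hx.1, hx.2]
  have ht2 : |t| ≤ 2 := hball t (Metric.mem_ball_self one_pos)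
  have cf : ∀ x : ℝ, |x| ≤ 2 → ContinuousOn (fun z => g z * f (mv h (a + (x : ℂ) * d) z)) U :=
    fun x hx => hg.mul (hf.continuousOn.comp (mv_cont _ _).continuousOn
      fun z hz => hK'B (hs z hz x hx))
  have cfd : ContinuousOn (fun z => fderiv ℝ f z) B :=
    hf.continuousOn_fderiv_of_isOpen hB (by simp)
  obtain ⟨C1, hC1⟩ := hK'.exists_bound_of_continuousOn (cfd.mono hK'B)
  obtain ⟨R, hR⟩ := hK'.isBounded.exists_norm_le
  have cF' : ContinuousOn (fun z => g z *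
      fderiv ℝ f (mv h (a + (t : ℂ) * d) z) (((h * z.im : ℝ) : ℂ) * d)) U := by
    refine hg.mul (ContinuousOn.clm_apply (cfd.comp (mv_cont _ _).continuousOn
      fun z hz => hK'B (hs z hz t ht2)) ?_)
    exact Continuous.continuousOn (by fun_prop)
  refine (hasDerivAt_integral_of_dominated_loc_of_deriv_le (μ := volume) (𝕜 := ℝ)
    (s := Metric.ball t 1)
    (F := fun (x : ℝ) z => (φ z : ℂ) * (g z * f (mv h (a + (x : ℂ) * d) z)))
    (F' := fun (x : ℝ) z => (φ z : ℂ) *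
      (g z * fderiv ℝ f (mv h (a + (x : ℂ) * d) z) (((h * z.im : ℝ) : ℂ) * d)))
    (x₀ := t) (bound := fun z => ‖(φ z : ℂ) * g z‖ * (C1 * (|h| * R * ‖d‖)))
    (Metric.ball_mem_nhds t one_pos)
    (Filter.eventually_of_mem (Metric.ball_mem_nhds t one_pos)
      fun x hx => (int_mul hU hφ (cf x (hball x hx))).1)
    (int_mul hU hφ (cf t ht2))
    (int_mul hU hφ cF').1
    (Eventually.of_forall fun z x hx => ?_)
    ((int_mul hU hφ hg).norm.mul_const _)
    (Eventually.of_forall fun z x hx => ?_)).2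
  · by_cases hz : z ∈ U
    · have h1 := hs z hz x (hball x hx)
      have h2 := hC1 _ h1
      have h3 := hR z (hUK hz)
      have h4 : ‖fderiv ℝ f (mv h (a + (x : ℂ) * d) z) (((h * z.im : ℝ) : ℂ) * d)‖ ≤
          C1 * (|h| * R * ‖d‖) := by
        refine (ContinuousLinearMap.le_opNorm _ _).trans ?_
        refine mul_le_mul h2 ?_ (norm_nonneg _) ((norm_nonneg _).trans h2)
        rw [norm_mul, Complex.norm_real, Real.norm_eq_abs, abs_mul]
        refine mul_le_mul_of_nonneg_right ?_ (norm_nonneg _)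
        exact mul_le_mul_of_nonneg_left ((Complex.abs_im_le_norm z).trans h3) (abs_nonneg _)
      rw [← mul_assoc, norm_mul]
      exact mul_le_mul_of_nonneg_left h4 (norm_nonneg _)
    · have : φ z = 0 := Pool.Agent.Y265.RW.TF.zero hφ hz
      rw [this]
      simp
  · by_cases hz : z ∈ U
    · have h1 := hK'B (hs z hz x (hball x hx))
      have h2 : HasFDerivAt f (fderiv ℝ f (mv h (a + (x : ℂ) * d) z))
          (mv h (a + (x : ℂ) * d) z) :=
        ((hf.contDiffAt (hB.mem_nhds h1)).differentiableAt (by simp)).hasFDerivAt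
      have h3 : HasDerivAt (fun x : ℝ => mv h (a + (x : ℂ) * d) z)
          (((h * z.im : ℝ) : ℂ) * d) x := by
        unfold mv
        have e1 : HasDerivAt (fun x : ℝ => (x : ℂ) * d) d x := by
          have := (Complex.ofRealCLM.hasDerivAt (x := x)).mul_const d
          simpa using this
        exact ((e1.const_add a).const_mul _).const_add z
      exact ((h2.comp_hasDerivAt x h3).const_mul (g z)).const_mul _
    · have : φ z = 0 := Pool.Agent.Y265.RW.TF.zero hφ hz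
      rw [this]
      simpa using hasDerivAt_const x (0 : ℂ)

theorem eq2 : S_EQ2 := by
  intro B h w H φ hφ h0 v v' hR hvv
  obtain ⟨R, hR⟩ := hR
  obtain ⟨U, K', δ, M, c⟩ := cfe H.op hφ
  have hφU : TF U φ := ⟨hφ.1, hφ.2.1, c.sU⟩
  obtain ⟨A, hA0, hA⟩ := A0 H c.hK c.KB
  have hM0 := c.M0
  have hsm : ∀ᶠ n in atTop, ∀ x : ℂ, ‖x‖ ≤ 5 * R → |h n| * ‖x‖ ≤ δ := by
    have h1 : Tendsto (fun n => h n * (5 * R)) atTop (𝓝 0) := by
      simpa using H.hlim.mul_const (5 * R)
    filter_upwards [h1.eventually (gt_mem_nhds c.dp)] with n hn x hx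
    rw [abs_of_pos (H.hpos n)]
    exact (mul_le_mul_of_nonneg_left hx (H.hpos n).le).trans hn.le
  obtain ⟨e, he, he'⟩ := H.up 0
  obtain ⟨e2, he2, he2'⟩ := H.dn 0
  obtain ⟨F1, hF1d⟩ : ∃ F : ℕ → ℂ → ℂ, F = fun n z => w (0 + 1) n z + (h n : ℂ) * e n z :=
    ⟨_, rfl⟩
  obtain ⟨F2, hF2d⟩ : ∃ F : ℕ → ℂ → ℂ, F = fun n z => - w (0 - 1) n z + (h n : ℂ) * e2 n z :=
    ⟨_, rfl⟩
  have hF1 : M2C B h F1 := by
    rw [hF1d]
    exact M2C.add H.op (H.bd _) (M2C.hmul H.op H.hlim he)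
  have hF2 : M2C B h F2 := by
    rw [hF2d]
    exact M2C.add H.op (M2C.neg H.op H.hlim (H.bd _)) (M2C.hmul H.op H.hlim he2)
  obtain ⟨C1, hC1⟩ := hF1.lb.bd K' c.hK c.KB
  obtain ⟨C2, hC2⟩ := hF2.lb.bd K' c.hK c.KB
  have key : ∀ᶠ n in atTop, ∫ z, φ z *
      ‖w 0 n (mv (h n) (v n) z) - w 0 n (mv (h n) (v' n) z)‖ ^ 2 ≤
      ((8 * M * A + 2 * M * C1) + (8 * M * A + 2 * M * C2)) * ‖v n - v' n‖ := by
    filter_upwards [hsm, hC1, hC2, hA 0] with n hs hC1 hC2 hA
    obtain ⟨hv, hv'⟩ := hR n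
    have hR0 : 0 ≤ R := (norm_nonneg _).trans hv
    have hsa := hs (v n) (by linarith)
    have hsb := hs (v' n) (by linarith)
    obtain ⟨d, hd⟩ : ∃ d, d = v n - v' n := ⟨_, rfl⟩
    have hdn : ‖d‖ ≤ 2 * R := by
      rw [hd]
      exact (norm_sub_le _ _).trans (by linarith)
    have hpt : ∀ t : ℝ, |t| ≤ 2 → |h n| * ‖v' n + (t : ℂ) * d‖ ≤ δ := by
      intro t ht
      apply hs
      refine (norm_add_le _ _).trans ?_
      rw [norm_mul, Complex.norm_real, Real.norm_eq_abs]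
      have h1 : |t| * ‖d‖ ≤ 2 * (2 * R) := mul_le_mul ht hdn (norm_nonneg _) (by norm_num)
      linarith
    obtain ⟨G, hG⟩ : ∃ G : ℂ → ℂ, G = fun z => (starRingEnd ℂ)
      (w 0 n (mv (h n) (v n) z) - w 0 n (mv (h n) (v' n) z)) := ⟨_, rfl⟩
    have ca := c.co hsa ((H.bd 0).co n)
    have cb := c.co hsb ((H.bd 0).co n)
    have hGc : ContinuousOn G U := by
      rw [hG]
      exact Complex.continuous_conj.comp_continuousOn (ca.sub cb)
    have hGb : ∫ z, |φ z| * ‖G z‖ ^ 2 ≤ 8 * M * A := by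
      have i1 := int_abs c.hU hφU ca
      have i2 := int_abs c.hU hφU cb
      have b1 := (c.bd hsa ((H.bd 0).co n)).trans (mul_le_mul_of_nonneg_left hA
        (mul_nonneg (by norm_num) hM0))
      have b2 := (c.bd hsb ((H.bd 0).co n)).trans (mul_le_mul_of_nonneg_left hA
        (mul_nonneg (by norm_num) hM0))
      calc ∫ z, |φ z| * ‖G z‖ ^ 2 ≤ ∫ z, (2 * (|φ z| * ‖w 0 n (mv (h n) (v n) z)‖ ^ 2) +
            2 * (|φ z| * ‖w 0 n (mv (h n) (v' n) z)‖ ^ 2)) := by
            refine integral_mono (int_abs c.hU hφU hGc) ((i1.const_mul 2).add (i2.const_mul 2))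
              fun z => ?_
            simp only [hG, RCLike.norm_conj]
            have h1 := norm_sub_le (w 0 n (mv (h n) (v n) z)) (w 0 n (mv (h n) (v' n) z))
            have h2 : ‖w 0 n (mv (h n) (v n) z) - w 0 n (mv (h n) (v' n) z)‖ ^ 2 ≤
              2 * ‖w 0 n (mv (h n) (v n) z)‖ ^ 2 + 2 * ‖w 0 n (mv (h n) (v' n) z)‖ ^ 2 := by
              have h3 := pow_le_pow_left₀ (norm_nonneg _) h1 2
              nlinarith [sq_nonneg (‖w 0 n (mv (h n) (v n) z)‖ - ‖w 0 n (mv (h n) (v' n) z)‖)]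
            have h4 := mul_le_mul_of_nonneg_left h2 (abs_nonneg (φ z))
            linarith
        _ = 2 * (∫ z, |φ z| * ‖w 0 n (mv (h n) (v n) z)‖ ^ 2) +
            2 * (∫ z, |φ z| * ‖w 0 n (mv (h n) (v' n) z)‖ ^ 2) := by
            rw [integral_add (i1.const_mul 2) (i2.const_mul 2), integral_const_mul,
              integral_const_mul]
        _ ≤ 8 * M * A := by linarith
    have hder : ∀ t ∈ Set.Icc (0:ℝ) 1, HasDerivAt
        (fun t : ℝ => ∫ z, (φ z : ℂ) * (G z * w 0 n (mv (h n) (v' n + (t : ℂ) * d) z)))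
        (∫ z, (φ z : ℂ) * (G z * fderiv ℝ (w 0 n) (mv (h n) (v' n + (t : ℂ) * d) z)
          (((h n * z.im : ℝ) : ℂ) * d))) t := fun t ht =>
      der2 c.hU c.UK hφU c.hK H.op c.KB (fun z hz t ht => c.mem z hz _ _ (hpt t ht)) hGc
        ((H.bd 0).sm n) ht
    have hbd : ∀ t ∈ Set.Icc (0:ℝ) 1, ‖∫ z, (φ z : ℂ) * (G z * fderiv ℝ (w 0 n)
        (mv (h n) (v' n + (t : ℂ) * d) z) (((h n * z.im : ℝ) : ℂ) * d))‖ ≤
        ((8 * M * A + 2 * M * C1) + (8 * M * A + 2 * M * C2)) * ‖d‖ := by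
      intro t ht
      have t2 : |t| ≤ 2 := by
        rw [abs_of_nonneg ht.1]; linarith [ht.2]
      have hst := hpt t t2
      obtain ⟨x, hx⟩ : ∃ x, x = v' n + (t : ℂ) * d := ⟨_, rfl⟩
      rw [← hx] at hst
      have hdet : 1 / 2 ≤ 1 + h n * x.im := c.det hst
      have hdet0 : 1 + h n * x.im ≠ 0 := by linarith
      have h5 := c.co hst (hF1.co n)
      have h6 := c.co hst (hF2.co n)
      have i1 : Integrable fun z => (φ z : ℂ) * (G z * F1 n (mv (h n) x z)) :=
        int_mul c.hU hφU (hGc.mul h5)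
      have i2 : Integrable fun z => (φ z : ℂ) * (G z * F2 n (mv (h n) x z)) :=
        int_mul c.hU hφU (hGc.mul h6)
      have e1 : ∫ z, (φ z : ℂ) * (G z * fderiv ℝ (w 0 n) (mv (h n) (v' n + (t : ℂ) * d) z)
          (((h n * z.im : ℝ) : ℂ) * d)) = (((1 + h n * x.im)⁻¹ : ℝ) : ℂ) *
          (d / 2 * (∫ z, (φ z : ℂ) * (G z * F1 n (mv (h n) x z))) +
            (starRingEnd ℂ) d / 2 * ∫ z, (φ z : ℂ) * (G z * F2 n (mv (h n) x z))) := by
        rw [← hx, ← integral_const_mul, ← integral_const_mul,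
          ← integral_add (i1.const_mul _) (i2.const_mul _), ← integral_const_mul]
        refine integral_congr_ae (Eventually.of_forall fun z => ?_)
        simp only
        by_cases hz : z ∈ U
        · have hzB := c.KB (c.mem z hz _ _ hst)
          rw [fd_mv (mv_im (h n) x z) hdet0, he' n _ hzB, he2' n _ hzB, hF1d, hF2d]
          ring
        · rw [Pool.Agent.Y265.RW.TF.zero hφU hz]; simp
      have hκ1 : |(1 + h n * x.im)⁻¹| ≤ 2 := by
        rw [abs_of_nonneg (inv_nonneg.2 (by linarith)), inv_le_comm₀ (by linarith)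
          (by norm_num)]
        linarith
      have b1 : ‖∫ z, (φ z : ℂ) * (G z * F1 n (mv (h n) x z))‖ ≤ 8 * M * A + 2 * M * C1 :=
        (pair_bd c.hU hφU hGc h5).trans (add_le_add hGb
          ((c.bd hst (hF1.co n)).trans (mul_le_mul_of_nonneg_left hC1
            (mul_nonneg (by norm_num) hM0))))
      have b2 : ‖∫ z, (φ z : ℂ) * (G z * F2 n (mv (h n) x z))‖ ≤ 8 * M * A + 2 * M * C2 :=
        (pair_bd c.hU hφU hGc h6).trans (add_le_add hGb
          ((c.bd hst (hF2.co n)).trans (mul_le_mul_of_nonneg_left hC2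
            (mul_nonneg (by norm_num) hM0))))
      rw [e1, norm_mul, Complex.norm_real, Real.norm_eq_abs]
      have b3 : ‖d / 2 * (∫ z, (φ z : ℂ) * (G z * F1 n (mv (h n) x z))) +
            (starRingEnd ℂ) d / 2 * ∫ z, (φ z : ℂ) * (G z * F2 n (mv (h n) x z))‖ ≤
          ‖d‖ / 2 * (8 * M * A + 2 * M * C1) + ‖d‖ / 2 * (8 * M * A + 2 * M * C2) := by
        refine (norm_add_le _ _).trans ?_
        rw [norm_mul, norm_mul, norm_div, norm_div, RCLike.norm_conj, Complex.norm_ofNat]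
        exact add_le_add (mul_le_mul_of_nonneg_left b1 (by positivity))
          (mul_le_mul_of_nonneg_left b2 (by positivity))
      calc |(1 + h n * x.im)⁻¹| * _ ≤ 2 * (‖d‖ / 2 * (8 * M * A + 2 * M * C1) +
            ‖d‖ / 2 * (8 * M * A + 2 * M * C2)) :=
            mul_le_mul hκ1 b3 (norm_nonneg _) (by norm_num)
        _ = _ := by ring
    have hmv := Convex.norm_image_sub_le_of_norm_hasDerivWithin_le (s := Set.Icc (0:ℝ) 1)
      (f := fun t : ℝ => ∫ z, (φ z : ℂ) * (G z * w 0 n (mv (h n) (v' n + (t : ℂ) * d) z)))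
      (fun t ht => (hder t ht).hasDerivWithinAt) hbd (convex_Icc 0 1)
      (Set.left_mem_Icc.2 zero_le_one) (Set.right_mem_Icc.2 zero_le_one)
    have ed1 : v' n + ((1 : ℝ) : ℂ) * d = v n := by
      rw [hd]
      push_cast
      ring
    have ed0 : v' n + ((0 : ℝ) : ℂ) * d = v' n := by simp
    simp only [ed1, ed0] at hmv
    rw [sub_zero, norm_one, mul_one] at hmv
    rw [← hd]
    refine le_trans (le_of_eq ?_) hmv
    have i1 : Integrable fun z => (φ z : ℂ) * (G z * w 0 n (mv (h n) (v n) z)) :=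
      int_mul c.hU hφU (hGc.mul ca)
    have i2 : Integrable fun z => (φ z : ℂ) * (G z * w 0 n (mv (h n) (v' n) z)) :=
      int_mul c.hU hφU (hGc.mul cb)
    rw [← integral_sub i1 i2]
    have e2 : ∫ z, ((φ z : ℂ) * (G z * w 0 n (mv (h n) (v n) z)) -
        (φ z : ℂ) * (G z * w 0 n (mv (h n) (v' n) z))) =
        ((∫ z, φ z * ‖w 0 n (mv (h n) (v n) z) - w 0 n (mv (h n) (v' n) z)‖ ^ 2 : ℝ) : ℂ) := by
      rw [← integral_complex_ofReal]
      refine integral_congr_ae (Eventually.of_forall fun z => ?_)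
      simp only [hG]
      have h6 := Complex.mul_conj (w 0 n (mv (h n) (v n) z) - w 0 n (mv (h n) (v' n) z))
      rw [Complex.normSq_eq_norm_sq] at h6
      push_cast at h6 ⊢
      rw [← h6]
      ring
    rw [e2, Complex.norm_real, Real.norm_eq_abs, abs_of_nonneg]
    exact integral_nonneg fun z => mul_nonneg (h0 z) (by positivity)
  have hlim : Tendsto (fun n => ((8 * M * A + 2 * M * C1) + (8 * M * A + 2 * M * C2)) *
      ‖v n - v' n‖) atTop (𝓝 0) := by
    have h1 := (hvv.norm).const_mul ((8 * M * A + 2 * M * C1) + (8 * M * A + 2 * M * C2))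
    simpa using h1
  exact squeeze_zero' (Eventually.of_forall fun n => integral_nonneg fun z =>
    mul_nonneg (h0 z) (by positivity)) key hlim

end Pool.Agent.H388.SF
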